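import Pool.Agent.V8H60.TV.Sep
import Pool.Agent.V8H60.TV.TestFun

/-!
# Averages of Borel sets against test functions
-/

set_option autoImplicit false
set_option linter.unusedSectionVars false

namespace Pool.Agent.V8H36.TV

open Set Filter Topology MeasureTheory Pool.Agent.V8H60.TV

theorem exists_model {W H X : Type} [TopologicalSpace W] [Group W] [NonarchimedeanGroup W]
    [PolishSpace W] [MeasurableSpace W] [BorelSpace W] [TopologicalSpace H] [Group H]
    [IsTopologicalGroup H] [PolishSpace H] [LocallyCompactSpace H] [MeasurableSpace H]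
    [BorelSpace H] [MeasurableSpace X] [StandardBorelSpace X] [MulAction W X] [MulAction H X]
    (hmW : Measurable fun p : W × X => p.1 • p.2) (hmH : Measurable fun p : H × X => p.1 • p.2)
    (hcom : ∀ (w : W) (h : H) (x : X), h • w • x = w • h • x) :
    ∃ (Ψ : ℕ → X → ℝ) (V : ℕ → Subgroup W), (∀ k, IsOpen (V k : Set W)) ∧
      (∀ k, Measurable (Ψ k)) ∧ (∀ k x, Continuous fun h : H => Ψ k (h • x)) ∧
      (∀ k, ∀ v ∈ V k, ∀ x, Ψ k (v • x) = Ψ k x) ∧
      ∀ x y, (∀ k, Ψ k x = Ψ k y) → x = y := by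
  obtain ⟨V₀, S, hVo, hSm, hSi, hSs⟩ := exists_family hmW
  obtain ⟨φ, hφc, hφk, hφ1, -, hφ3⟩ := exists_testFun H
  let μ : Measure H := Measure.haar
  let B : ℕ → X → Set H := fun j x => {t : H | t⁻¹ • x ∈ S j}
  have hBm : ∀ j x, MeasurableSet (B j x) := fun j x =>
    (hmH.comp (measurable_inv.prodMk measurable_const)) (hSm j)
  refine ⟨fun n x => ∫ t in B n.unpair.1 x, φ n.unpair.2 t ∂μ, fun n => V₀ n.unpair.1,
    fun n => hVo _, fun n => ?_, fun n x => ?_, fun n v hv x => ?_, fun x y hxy => ?_⟩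
  · -- measurability
    have hf : Measurable (({p : X × H | p.2⁻¹ • p.1 ∈ S n.unpair.1}).indicator
        fun p : X × H => φ n.unpair.2 p.2) := by
      refine Measurable.indicator ((hφc _).measurable.comp measurable_snd) ?_
      exact (hmH.comp (measurable_snd.inv.prodMk measurable_fst)) (hSm _)
    have h1 := (hf.stronglyMeasurable.integral_prod_right' (ν := μ)).measurable
    have h2 : (fun x : X => ∫ t in B n.unpair.1 x, φ n.unpair.2 t ∂μ) = fun x : X =>
        ∫ t, ({p : X × H | p.2⁻¹ • p.1 ∈ S n.unpair.1}).indicator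
        (fun p : X × H => φ n.unpair.2 p.2) (x, t) ∂μ := by
      funext x
      rw [← integral_indicator (hBm _ _)]
      rfl
    show Measurable (fun x : X => ∫ t in B n.unpair.1 x, φ n.unpair.2 t ∂μ)
    rw [h2]
    exact h1
  · -- continuity
    have hg : Continuous fun s : H => φ n.unpair.2 s⁻¹ := (hφc _).comp continuous_inv
    have hg' : HasCompactSupport fun s : H => φ n.unpair.2 s⁻¹ :=
      (hφk _).comp_homeomorph (Homeomorph.inv H)
    have h1 : Continuous fun h : H =>
        ∫ t, φ n.unpair.2 (t⁻¹ * h⁻¹)⁻¹ ∂(μ.restrict (B n.unpair.1 x)) :=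
      (continuous_integral_apply_inv_mul (μ := μ.restrict (B n.unpair.1 x)) hg hg').comp
        continuous_inv
    refine h1.congr fun h => ?_
    show ∫ t, φ n.unpair.2 (t⁻¹ * h⁻¹)⁻¹ ∂(μ.restrict (B n.unpair.1 x)) =
      ∫ t in B n.unpair.1 (h • x), φ n.unpair.2 t ∂μ
    rw [← integral_indicator (hBm _ _), ← integral_indicator (hBm _ _)]
    rw [← integral_mul_left_eq_self (μ := μ)
      ((B n.unpair.1 (h • x)).indicator (fun t => φ n.unpair.2 t)) h]
    refine integral_congr_ae (Eventually.of_forall fun t => ?_)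
    have hmem : h * t ∈ B n.unpair.1 (h • x) ↔ t ∈ B n.unpair.1 x := by
      show (h * t)⁻¹ • h • x ∈ S n.unpair.1 ↔ t⁻¹ • x ∈ S n.unpair.1
      rw [smul_smul, mul_inv_rev, mul_assoc, inv_mul_cancel, mul_one]
    show (B n.unpair.1 x).indicator (fun t => φ n.unpair.2 (t⁻¹ * h⁻¹)⁻¹) t =
      (B n.unpair.1 (h • x)).indicator (fun t => φ n.unpair.2 t) (h * t)
    by_cases ht : t ∈ B n.unpair.1 x
    · rw [indicator_of_mem ht, indicator_of_mem (hmem.2 ht), mul_inv_rev, inv_inv, inv_inv]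
    · rw [indicator_of_notMem ht, indicator_of_notMem (fun h' => ht (hmem.1 h'))]
  · -- invariance
    have hB : B n.unpair.1 (v • x) = B n.unpair.1 x := by
      ext t
      show t⁻¹ • v • x ∈ S n.unpair.1 ↔ t⁻¹ • x ∈ S n.unpair.1
      rw [hcom v t⁻¹ x]
      exact hSi _ v hv _
    show ∫ t in B n.unpair.1 (v • x), φ n.unpair.2 t ∂μ = ∫ t in B n.unpair.1 x, φ n.unpair.2 t ∂μ
    rw [hB]
  · -- separation
    have h1 : ∀ j, B j x =ᵐ[μ] B j y := by
      intro j
      refine hφ3 μ _ _ (hBm _ _) (hBm _ _) fun k => ?_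
      have h2 := hxy (Nat.pair j k)
      simp only [Nat.unpair_pair] at h2
      exact h2
    have h3 : ∀ᵐ t ∂μ, ∀ j, (t ∈ B j x ↔ t ∈ B j y) :=
      ae_all_iff.2 fun j => (h1 j).mem_iff
    obtain ⟨t, ht⟩ := h3.exists
    have h4 : t⁻¹ • x = t⁻¹ • y := hSs _ _ fun j => ht j
    exact smul_left_cancel _ h4

end Pool.Agent.V8H36.TV
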