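import Mathlib

/-!
# Continuity and measurability of suprema of test functions over subgroups
-/

set_option autoImplicit false

namespace Pool.Agent.V8H36.TV

open Set Filter Topology MeasureTheory

/-- Comparison of suprema. -/
theorem sSup_image_le {H : Type} {f g : H → ℝ} {F : Set H} (hF : F.Nonempty) {ε : ℝ}
    (hg : BddAbove (g '' F)) (h : ∀ t, f t ≤ g t + ε) : sSup (f '' F) ≤ sSup (g '' F) + ε := by
  refine csSup_le (hF.image f) ?_
  rintro _ ⟨t, ht, rfl⟩
  exact (h t).trans (by linarith [le_csSup hg (mem_image_of_mem g ht)])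

theorem sup_conj_cont {H : Type} [TopologicalSpace H] [Group H] [IsTopologicalGroup H]
    [T2Space H] [LocallyCompactSpace H] {φ : H → ℝ} (hφ : Continuous φ)
    (hc : HasCompactSupport φ) (h0 : ∀ t, 0 ≤ φ t ∧ φ t ≤ 1) {F : Set H} (hF : F.Nonempty) :
    Continuous fun h : H => sSup ((fun t => φ (h * t * h⁻¹)) '' F) := by
  rw [continuous_iff_continuousAt]
  intro a
  rw [Metric.continuousAt_iff']
  intro ε hε
  obtain ⟨C, hC, hCa⟩ := exists_compact_mem_nhds a
  set K' : Set H := (fun p : H × H => p.1⁻¹ * p.2 * p.1) '' (C ×ˢ tsupport φ) with hK'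
  have hK'c : IsCompact K' := by
    refine (hC.prod hc).image ?_
    fun_prop
  have : CompactSpace K' := isCompact_iff_compactSpace.1 hK'c
  let f : C(H × K', ℝ) := ⟨fun p => φ (p.1 * (p.2 : H) * p.1⁻¹), by fun_prop⟩
  have hcont : Continuous (f.curry : H → C(K', ℝ)) := f.curry.continuous
  have h1 : ∀ᶠ h in 𝓝 a, dist (f.curry h) (f.curry a) < ε / 2 := by
    exact (Metric.continuousAt_iff'.1 (hcont.continuousAt (x := a))) (ε / 2) (by linarith)
  filter_upwards [h1, hCa] with h hh hhC
  have haC : a ∈ C := mem_of_mem_nhds hCa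
  have key : ∀ t, |φ (h * t * h⁻¹) - φ (a * t * a⁻¹)| ≤ ε / 2 := by
    intro t
    by_cases ht : t ∈ K'
    · have h2 := ContinuousMap.dist_apply_le_dist (f := f.curry h) (g := f.curry a) ⟨t, ht⟩
      have h3 : dist (f.curry h ⟨t, ht⟩) (f.curry a ⟨t, ht⟩) =
          |φ (h * t * h⁻¹) - φ (a * t * a⁻¹)| := rfl
      rw [← h3]
      linarith
    · have hz : ∀ b ∈ C, φ (b * t * b⁻¹) = 0 := by
        intro b hb
        by_contra hne
        apply ht
        refine ⟨(b, b * t * b⁻¹), ⟨hb, subset_tsupport φ hne⟩, ?_⟩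
        simp only
        group
      rw [hz h hhC, hz a haC, sub_zero, abs_zero]
      linarith
  have hb : ∀ b : H, BddAbove ((fun t => φ (b * t * b⁻¹)) '' F) := by
    intro b
    refine ⟨1, ?_⟩
    rintro _ ⟨t, _, rfl⟩
    exact (h0 _).2
  have l1 := sSup_image_le (f := fun t => φ (h * t * h⁻¹)) (g := fun t => φ (a * t * a⁻¹)) hF
    (ε := ε / 2) (hb a) (fun t => by
      have := (abs_le.1 (key t)).2
      linarith)
  have l2 := sSup_image_le (f := fun t => φ (a * t * a⁻¹)) (g := fun t => φ (h * t * h⁻¹)) hF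
    (ε := ε / 2) (hb h) (fun t => by
      have := (abs_le.1 (key t)).1
      linarith)
  rw [Real.dist_eq, abs_lt]
  constructor <;> linarith

theorem sup_stab_meas {H X : Type} [TopologicalSpace H] [Group H] [IsTopologicalGroup H]
    [PolishSpace H] [MeasurableSpace H] [BorelSpace H]
    [MeasurableSpace X] [StandardBorelSpace X] [MulAction H X]
    (hm : Measurable fun p : H × X => p.1 • p.2) {Ψ : ℕ → X → ℝ} (hΨm : ∀ k, Measurable (Ψ k))
    (hΨc : ∀ k x, Continuous fun h : H => Ψ k (h • x))
    (hΨs : ∀ x y, (∀ k, Ψ k x = Ψ k y) → x = y) {φ : H → ℝ} (hφ : Continuous φ)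
    (hc : HasCompactSupport φ) (h0 : ∀ t, 0 ≤ φ t ∧ φ t ≤ 1) :
    Measurable fun x : X => sSup (φ '' {t : H | t • x = x}) := by
  have hbd : ∀ x : X, BddAbove (φ '' {t : H | t • x = x}) := by
    intro x
    refine ⟨1, ?_⟩
    rintro _ ⟨t, _, rfl⟩
    exact (h0 _).2
  have hne : ∀ x : X, (φ '' {t : H | t • x = x}).Nonempty := fun x =>
    ⟨φ 1, 1, one_smul H x, rfl⟩
  refine measurable_of_Ici fun r => ?_
  rcases le_or_gt r 0 with hr | hr
  · have : (fun x : X => sSup (φ '' {t : H | t • x = x})) ⁻¹' Ici r = univ := by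
      ext x
      simp only [mem_preimage, mem_Ici, mem_univ, iff_true]
      exact hr.trans ((h0 1).1.trans (le_csSup (hbd x) ⟨1, one_smul H x, rfl⟩))
    rw [this]
    exact MeasurableSet.univ
  · set d : ℕ → H := TopologicalSpace.denseSeq H with hd
    have hdr : DenseRange d := TopologicalSpace.denseRange_denseSeq H
    have e : (fun x : X => sSup (φ '' {t : H | t • x = x})) ⁻¹' Ici r =
        ⋂ M : ℕ, ⋃ l : ℕ, {x : X | r - 1 / ((M : ℝ) + 1) ≤ φ (d l)} ∩
          ⋂ k : ℕ, ⋂ _ : k ≤ M, {x : X | |Ψ k (d l • x) - Ψ k x| ≤ 1 / ((M : ℝ) + 1)} := by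
      ext x
      simp only [mem_preimage, mem_Ici, mem_iInter, mem_iUnion, mem_inter_iff, mem_ofPred_eq]
      constructor
      · intro hx M
        have hM : (0 : ℝ) < 1 / ((M : ℝ) + 1) := by positivity
        obtain ⟨_, ⟨t, ht, rfl⟩, hlt⟩ := exists_lt_of_lt_csSup (hne x)
          (show r - 1 / ((M : ℝ) + 1) < sSup (φ '' {t : H | t • x = x}) by linarith)
        have ho : IsOpen ({s : H | r - 1 / ((M : ℝ) + 1) < φ s} ∩
            ⋂ k ∈ Finset.range (M + 1), {s : H | |Ψ k (s • x) - Ψ k x| < 1 / ((M : ℝ) + 1)}) := by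
          refine (isOpen_lt continuous_const hφ).inter ?_
          refine isOpen_biInter_finset fun k _ => ?_
          exact isOpen_lt ((hΨc k x).sub continuous_const).abs continuous_const
        have htm : t ∈ ({s : H | r - 1 / ((M : ℝ) + 1) < φ s} ∩
            ⋂ k ∈ Finset.range (M + 1), {s : H | |Ψ k (s • x) - Ψ k x| < 1 / ((M : ℝ) + 1)}) := by
          refine ⟨hlt, ?_⟩
          simp only [mem_iInter, mem_ofPred_eq]
          intro k _
          have : t • x = x := ht
          rw [this, sub_self, abs_zero]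
          exact hM
        obtain ⟨l, hl⟩ := hdr.exists_mem_open ho ⟨t, htm⟩
        refine ⟨l, le_of_lt hl.1, fun k hk => ?_⟩
        have h2 := hl.2
        simp only [mem_iInter, mem_ofPred_eq] at h2
        exact (h2 k (Finset.mem_range.2 (by omega))).le
      · intro hx
        choose l hl1 hl2 using hx
        obtain ⟨M0, hM0⟩ : ∃ M0 : ℕ, 1 / ((M0 : ℝ) + 1) < r := exists_nat_one_div_lt hr
        have hmono : ∀ M : ℕ, 1 / (((M + M0 : ℕ) : ℝ) + 1) ≤ 1 / ((M0 : ℝ) + 1) := by
          intro M
          apply one_div_le_one_div_of_le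
          · positivity
          · push_cast
            have : (0 : ℝ) ≤ M := Nat.cast_nonneg M
            linarith
        have hmem : ∀ M : ℕ, d (l (M + M0)) ∈ tsupport φ := by
          intro M
          apply subset_tsupport φ
          have h3 := hl1 (M + M0)
          have h4 := hmono M
          rw [Function.mem_support]
          have : 0 < φ (d (l (M + M0))) := by linarith
          exact this.ne'
        obtain ⟨a, _, ψ, hψ, hlim⟩ := IsCompact.tendsto_subseq hc hmem
        have hto : Tendsto (fun n => ψ n + M0) atTop atTop :=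
          tendsto_atTop_mono (fun n => Nat.le_add_right _ _) hψ.tendsto_atTop
        have hz : Tendsto (fun n => 1 / (((ψ n + M0 : ℕ) : ℝ) + 1)) atTop (𝓝 0) :=
          (tendsto_one_div_add_atTop_nhds_zero_nat (𝕜 := ℝ)).comp hto
        have hφa : r ≤ φ a := by
          have h5 : Tendsto (fun n => φ (d (l (ψ n + M0)))) atTop (𝓝 (φ a)) :=
            (hφ.tendsto a).comp hlim
          have h6 : Tendsto (fun n => r - 1 / (((ψ n + M0 : ℕ) : ℝ) + 1)) atTop (𝓝 (r - 0)) :=
            tendsto_const_nhds.sub hz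
          rw [sub_zero] at h6
          exact le_of_tendsto_of_tendsto' h6 h5 (fun n => hl1 _)
        have hax : a • x = x := by
          apply hΨs
          intro k
          have h5 : Tendsto (fun n => |Ψ k (d (l (ψ n + M0)) • x) - Ψ k x|) atTop
              (𝓝 |Ψ k (a • x) - Ψ k x|) := by
            have h7 : Tendsto (fun n => Ψ k (d (l (ψ n + M0)) • x)) atTop (𝓝 (Ψ k (a • x))) :=
              ((hΨc k x).tendsto a).comp hlim
            exact (h7.sub tendsto_const_nhds).abs
          have h8 : |Ψ k (a • x) - Ψ k x| ≤ 0 := by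
            refine le_of_tendsto_of_tendsto h5 hz ?_
            filter_upwards [hto.eventually_ge_atTop k] with n hn
            exact hl2 _ k hn
          have h9 := abs_nonpos_iff.1 h8
          linarith
        exact hφa.trans (le_csSup (hbd x) ⟨a, hax, rfl⟩)
    rw [e]
    refine MeasurableSet.iInter fun M => MeasurableSet.iUnion fun l => ?_
    refine MeasurableSet.inter (MeasurableSet.const _) ?_
    refine MeasurableSet.iInter fun k => MeasurableSet.iInter fun _ => ?_
    have h1 : Measurable fun x : X => Ψ k (d l • x) :=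
      (hΨm k).comp (hm.comp (measurable_const.prodMk measurable_id))
    exact measurableSet_le (continuous_abs.measurable.comp (h1.sub (hΨm k))) measurable_const

end Pool.Agent.V8H36.TV
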