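import Mathlib
import Pool.Agent.V8H60.TV.Sep
import Pool.Agent.V8H60.TV.Perm
import Pool.Agent.V8H60.TV.TestFun
import Pool.Agent.V8H60.TV.LcPolish
import Pool.Agent.V8H36.TV.SupStab
import Pool.Agent.V8H36.TV.Model

/-!
# Reduction to free actions of the locally compact factor
-/

set_option autoImplicit false
set_option linter.unusedSectionVars false

namespace Pool.Agent.V8H36.TV

open Set Filter Topology MeasureTheory Pool.Agent.V8H60.TV
open Function (Surjective Injective)

/-- A piece: the stabilizer of every point in the second factor is the same normal subgroup. -/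
theorem piece {W N A : Type} [TopologicalSpace W] [Group W] [NonarchimedeanGroup W]
    [PolishSpace W] [MeasurableSpace W] [BorelSpace W] [TopologicalSpace N] [Group N]
    [IsTopologicalGroup N] [PolishSpace N] [LocallyCompactSpace N] [MeasurableSpace N]
    [BorelSpace N] [MeasurableSpace A] [StandardBorelSpace A] [MulAction (W × N) A]
    [MeasurableSMul₂ (W × N) A]
    (hfree : ∀ (L : Type) [TopologicalSpace L] [Group L] [IsTopologicalGroup L] [PolishSpace L]
      [LocallyCompactSpace L] [MeasurableSpace L] [BorelSpace L] (Y : Type) [MeasurableSpace Y]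
      [StandardBorelSpace Y] [MulAction (W × L) Y] [MeasurableSMul₂ (W × L) Y],
      (∀ (l : L) (y : Y), ((1, l) : W × L) • y = y → l = 1) → Dich (W × L) Y)
    (F : Subgroup N) [F.Normal] (hF : IsClosed (F : Set N))
    (hst : ∀ (n : N) (x : A), ((1, n) : W × N) • x = x ↔ n ∈ F) : Dich (W × N) A := by
  have : IsClosed (F : Set N) := hF
  have hT : T2Space (N ⧸ F) := inferInstance
  have hPol : PolishSpace (N ⧸ F) := polish_of_lc (N ⧸ F)
  let q : W × N →* W × (N ⧸ F) := MonoidHom.prodMap (MonoidHom.id W) (QuotientGroup.mk' F)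
  have hq : Continuous q :=
    (continuous_fst).prodMk ((QuotientGroup.continuous_mk).comp continuous_snd)
  have hqs : Surjective q := by
    rintro ⟨w, l⟩
    obtain ⟨n, rfl⟩ := QuotientGroup.mk'_surjective F l
    exact ⟨(w, n), rfl⟩
  have hker : ∀ g : W × N, g ∈ q.ker ↔ g.1 = 1 ∧ g.2 ∈ F := by
    rintro ⟨w, n⟩
    rw [MonoidHom.mem_ker]
    show (w, (QuotientGroup.mk' F) n) = (1 : W × (N ⧸ F)) ↔ _
    rw [Prod.mk_eq_one]
    refine and_congr Iff.rfl ?_
    exact QuotientGroup.eq_one_iff n
  have htriv : ∀ g ∈ q.ker, ∀ x : A, g • x = x := by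
    rintro ⟨w, n⟩ hg x
    obtain ⟨h1, h2⟩ := (hker _).1 hg
    simp only at h1 h2
    subst h1
    exact (hst n x).2 h2
  have hmet := measurableEmbedding_embeddingReal A
  obtain ⟨Y, _, _, _, _, p, hp, hps, heq, hpo⟩ := exists_quot q hq hqs (embeddingReal A)
    hmet.measurable (fun x y => by
      constructor
      · intro h
        exact ⟨1, Subgroup.one_mem _, by rw [one_smul]; exact hmet.injective h⟩
      · rintro ⟨n, hn, h⟩
        rw [htriv n hn x] at h
        rw [h])
  refine (dich_quot hqs hp hps heq fun x y hxy => ?_).2 (hfree (N ⧸ F) Y ?_)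
  · obtain ⟨n, -, hn⟩ := (hpo x y).1 hxy
    exact ⟨n, hn⟩
  · intro l y hy
    obtain ⟨x, rfl⟩ := hps y
    obtain ⟨n, rfl⟩ := QuotientGroup.mk'_surjective F l
    have h1 : p (((1, n) : W × N) • x) = p x := by
      rw [heq]
      exact hy
    obtain ⟨m, hm, hmx⟩ := (hpo _ _).1 h1
    rw [htriv m hm] at hmx
    exact (QuotientGroup.eq_one_iff n).2 ((hst n x).1 hmx)

theorem tvc_of_free {W H : Type} [TopologicalSpace W] [Group W] [NonarchimedeanGroup W]
    [PolishSpace W] [MeasurableSpace W] [BorelSpace W] [TopologicalSpace H] [Group H]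
    [IsTopologicalGroup H] [PolishSpace H] [LocallyCompactSpace H] [MeasurableSpace H]
    [BorelSpace H]
    (hfree : ∀ (L : Type) [TopologicalSpace L] [Group L] [IsTopologicalGroup L] [PolishSpace L]
      [LocallyCompactSpace L] [MeasurableSpace L] [BorelSpace L] (Y : Type) [MeasurableSpace Y]
      [StandardBorelSpace Y] [MulAction (W × L) Y] [MeasurableSMul₂ (W × L) Y],
      (∀ (l : L) (y : Y), ((1, l) : W × L) • y = y → l = 1) → Dich (W × L) Y) :
    TVC (W × H) := by
  intro X _ _ _ _
  have hm : Measurable fun p : (W × H) × X => p.1 • p.2 := measurable_smul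
  let actW : MulAction W X := MulAction.compHom X (MonoidHom.inl W H)
  let actH : MulAction H X := MulAction.compHom X (MonoidHom.inr W H)
  have hW1 : ∀ (w : W) (x : X), w • x = ((w, 1) : W × H) • x := fun _ _ => rfl
  have hH1 : ∀ (h : H) (x : X), h • x = ((1, h) : W × H) • x := fun _ _ => rfl
  have hWH : ∀ (w : W) (h : H) (x : X), ((w, h) : W × H) • x = w • h • x := by
    intro w h x
    rw [hW1, hH1, smul_smul, Prod.mk_mul_mk, mul_one, one_mul]
  have hcom : ∀ (w : W) (h : H) (x : X), h • w • x = w • h • x := by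
    intro w h x
    rw [← hWH, hH1, hW1, smul_smul, Prod.mk_mul_mk, mul_one, one_mul]
  have hmW : Measurable fun p : W × X => p.1 • p.2 :=
    hm.comp ((measurable_fst.prodMk measurable_const).prodMk measurable_snd)
  have hmH : Measurable fun p : H × X => p.1 • p.2 :=
    hm.comp ((measurable_const.prodMk measurable_fst).prodMk measurable_snd)
  obtain ⟨Ψ, V, -, hΨm, hΨc, -, hΨs⟩ := exists_model hmW hmH hcom
  obtain ⟨φ, hφc, hφk, hφ1, hφ2, -⟩ := exists_testFun H
  -- stabilizers
  let St : X → Set H := fun x => {t : H | t • x = x}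
  have hStc : ∀ x, IsClosed (St x) := by
    intro x
    have h1 : St x = ⋂ k, {t : H | Ψ k (t • x) = Ψ k x} := by
      ext t
      simp only [mem_iInter]
      constructor
      · intro h k
        have h' : t • x = x := h
        show Ψ k (t • x) = Ψ k x
        rw [h']
      · intro h
        exact hΨs _ _ h
    rw [h1]
    exact isClosed_iInter fun k => isClosed_eq (hΨc k x) continuous_const
  have hSt1 : ∀ x, (1 : H) ∈ St x := fun x => one_smul H x
  have hStH : ∀ (h : H) (x : X) (t : H), t ∈ St (h • x) ↔ h⁻¹ * t * h ∈ St x := by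
    intro h x t
    show t • h • x = h • x ↔ (h⁻¹ * t * h) • x = x
    rw [mul_smul, mul_smul, inv_smul_eq_iff]
  have hStW : ∀ (w : W) (x : X), St (w • x) = St x := by
    intro w x
    ext t
    show t • w • x = w • x ↔ t • x = x
    rw [hcom]
    constructor
    · intro h
      exact smul_left_cancel w h
    · intro h
      rw [h]
  let θ : ℕ → X → ℝ := fun k x => sSup (φ k '' {t : H | t • x = x})
  have hθm : ∀ k, Measurable (θ k) := fun k =>
    sup_stab_meas hmH hΨm hΨc hΨs (hφc k) (hφk k) (hφ1 k)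
  have hθc : ∀ k x, Continuous fun h : H => θ k (h • x) := by
    intro k x
    have h1 := sup_conj_cont (hφc k) (hφk k) (hφ1 k) (F := St x) ⟨1, hSt1 x⟩
    refine h1.congr fun h => ?_
    show sSup ((fun t => φ k (h * t * h⁻¹)) '' St x) = sSup (φ k '' St (h • x))
    congr 1
    ext r
    constructor
    · rintro ⟨t, ht, rfl⟩
      refine ⟨h * t * h⁻¹, ?_, rfl⟩
      rw [hStH]
      have e : h⁻¹ * (h * t * h⁻¹) * h = t := by group
      rw [e]
      exact ht
    · rintro ⟨t, ht, rfl⟩
      refine ⟨h⁻¹ * t * h, (hStH h x t).1 ht, ?_⟩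
      show φ k (h * (h⁻¹ * t * h) * h⁻¹) = φ k t
      congr 1
      group
  have hθle : ∀ x y, (∀ k, θ k x = θ k y) → St x ⊆ St y := by
    intro x y h t ht
    by_contra hty
    obtain ⟨k, hk1, hk2⟩ := hφ2 (St y)ᶜ (hStc y).isOpen_compl t hty
    have h1 : θ k y ≤ 0 := by
      refine csSup_le ⟨φ k 1, 1, hSt1 y, rfl⟩ ?_
      rintro _ ⟨s, hs, rfl⟩
      exact (hk2 s (fun hs' => hs' hs)).le
    have h2 : φ k t ≤ θ k x := le_csSup ⟨1, by
      rintro _ ⟨s, _, rfl⟩
      exact (hφ1 k s).2⟩ ⟨t, ht, rfl⟩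
    rw [h k] at h2
    linarith
  have hθiff : ∀ x y, (∀ k, θ k x = θ k y) ↔ St x = St y := by
    intro x y
    constructor
    · intro h
      exact Subset.antisymm (hθle x y h) (hθle y x fun k => (h k).symm)
    · intro h k
      show sSup (φ k '' St x) = sSup (φ k '' St y)
      rw [h]
  -- the relation
  let E : X → X → Prop := fun x y => ∃ h : H, ∀ k, θ k (h • x) = θ k y
  have hEiff : ∀ x y, E x y ↔ ∃ h : H, St (h • x) = St y := fun x y =>
    exists_congr fun h => hθiff (h • x) y
  have hconj : ∀ (h : H) (x y : X), St x = St y → St (h • x) = St (h • y) := by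
    intro h x y hxy
    ext t
    rw [hStH, hStH, hxy]
  have hE : Equivalence E := by
    refine ⟨fun x => ⟨1, fun k => by rw [one_smul]⟩, fun {x y} hxy => ?_, fun {x y z} hxy hyz => ?_⟩
    · rw [hEiff] at hxy ⊢
      obtain ⟨h, hh⟩ := hxy
      refine ⟨h⁻¹, ?_⟩
      rw [← hconj h⁻¹ _ _ hh, inv_smul_smul]
    · rw [hEiff] at hxy hyz ⊢
      obtain ⟨h, hh⟩ := hxy
      obtain ⟨h', hh'⟩ := hyz
      refine ⟨h' * h, ?_⟩
      rw [mul_smul, hconj h' _ _ hh, hh']
  have hEm : MeasurableSet {p : X × X | E p.1 p.2} :=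
    rel_meas (act := fun p : H × X => p.1 • p.2) hmH hθm hθc
  let _ := upgradeStandardBorel X
  rcases Pool.Agent.H579R3.SV.silver hE hEm (MeasurableSet.univ (α := X)).analyticSet with
    ⟨R, -, hR, hR2⟩ | ⟨f, hf, -, hf2⟩
  swap
  · right
    refine ⟨f, hf.measurable, fun a b hab => ?_⟩
    rintro ⟨⟨w, h⟩, hg⟩
    refine hf2 a b hab ((hEiff _ _).2 ⟨h, ?_⟩)
    rw [hWH] at hg
    rw [← hg, hStW]
  -- the pieces
  have hpiece : ∀ s : X, (∃ f : (ℕ → Bool) → X, Measurable f ∧
        ∀ x y : ℕ → Bool, x ≠ y → ¬ ∃ g : W × H, g • f x = f y) ∨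
      ∃ C : Set X, C.Countable ∧ ∀ x, St x = St s → ∃ c ∈ C, ∃ g : W × H, g • c = x := by
    intro s
    let F : Subgroup H := MulAction.stabilizer H s
    have hFS : (F : Set H) = St s := rfl
    have hFc : IsClosed (F : Set H) := hStc s
    let N : Subgroup H := Subgroup.normalizer (F : Set H)
    have hNmem : ∀ n : H, n ∈ N ↔ ∀ t, t ∈ St s ↔ n * t * n⁻¹ ∈ St s := fun n =>
      Subgroup.mem_normalizer_iff
    have hNc : IsClosed (N : Set H) := by
      have h1 : (N : Set H) = (⋂ t ∈ St s, {n : H | n * t * n⁻¹ ∈ St s}) ∩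
          ⋂ t ∈ St s, {n : H | n⁻¹ * t * n ∈ St s} := by
        ext n
        simp only [mem_inter_iff, mem_iInter]
        constructor
        · intro hn
          have hn' := (hNmem n).1 hn
          refine ⟨fun t ht => (hn' t).1 ht, fun t ht => ?_⟩
          show n⁻¹ * t * n ∈ St s
          rw [hn']
          have e : n * (n⁻¹ * t * n) * n⁻¹ = t := by group
          rw [e]
          exact ht
        · rintro ⟨h1, h2⟩
          refine (hNmem n).2 fun t => ⟨fun ht => h1 t ht, fun ht => ?_⟩
          have h3 : n⁻¹ * (n * t * n⁻¹) * n ∈ St s := h2 _ ht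
          have e : n⁻¹ * (n * t * n⁻¹) * n = t := by group
          rwa [e] at h3
      rw [h1]
      refine IsClosed.inter ?_ ?_
      · refine isClosed_biInter fun t _ => (hStc s).preimage ?_
        fun_prop
      · refine isClosed_biInter fun t _ => (hStc s).preimage ?_
        fun_prop
    have _ : PolishSpace N := hNc.polishSpace
    have _ : LocallyCompactSpace N := hNc.isClosedEmbedding_subtypeVal.locallyCompactSpace
    let A : Set X := {x | St x = St s}
    have hAm : MeasurableSet A := by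
      have h1 : A = ⋂ k, {x | θ k x = θ k s} := by
        ext x
        simp only [mem_iInter]
        exact (hθiff x s).symm
      rw [h1]
      exact MeasurableSet.iInter fun k => measurableSet_eq_fun (hθm k) measurable_const
    have hinv : ∀ (w : W) (n : H), n ∈ N → ∀ x ∈ A, ((w, n) : W × H) • x ∈ A := by
      intro w n hn x hx
      show St (((w, n) : W × H) • x) = St s
      rw [hWH, hStW]
      ext t
      rw [hStH]
      have hx' : St x = St s := hx
      rw [hx', (hNmem n).1 hn]
      have e : n * (n⁻¹ * t * n) * n⁻¹ = t := by group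
      rw [e]
    let actA : MulAction (W × N) A :=
      { smul := fun g x => ⟨((g.1, (g.2 : H)) : W × H) • (x : X), hinv g.1 g.2 g.2.2 x x.2⟩
        one_smul := fun x => Subtype.ext (one_smul (W × H) (x : X))
        mul_smul := fun g g' x => Subtype.ext (mul_smul ((g.1, (g.2 : H)) : W × H)
          ((g'.1, (g'.2 : H)) : W × H) (x : X)) }
    have hsmul : ∀ (g : W × N) (x : A),
        ((g • x : A) : X) = ((g.1, (g.2 : H)) : W × H) • (x : X) := fun _ _ => rfl
    have _ : StandardBorelSpace A := hAm.standardBorel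
    have hmA : Measurable fun p : (W × N) × A => p.1 • p.2 := by
      have h1 : Measurable fun p : (W × N) × A => ((p.1.1, (p.1.2 : H)) : W × H) • (p.2 : X) :=
        hm.comp (((measurable_fst.comp measurable_fst).prodMk (measurable_subtype_coe.comp
          (measurable_snd.comp measurable_fst))).prodMk (measurable_subtype_coe.comp measurable_snd))
      exact h1.subtype_mk (h := fun p => hinv p.1.1 p.1.2 p.1.2.2 p.2 p.2.2)
    have _ : MeasurableSMul₂ (W × N) A := ⟨hmA⟩
    have hFN : IsClosed ((F.subgroupOf N : Subgroup N) : Set N) :=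
      hFc.preimage continuous_subtype_val
    have hD : Dich (W × N) A := by
      refine piece hfree (F.subgroupOf N) hFN fun n x => ?_
      rw [Subgroup.mem_subgroupOf]
      have h1 : ((1, n) : W × N) • x = x ↔ (n : H) • (x : X) = x :=
        ⟨fun h => congrArg Subtype.val h, fun h => Subtype.ext h⟩
      rw [h1]
      have h2 : St (x : X) = St s := x.2
      show (n : H) ∈ St (x : X) ↔ (n : H) ∈ St s
      rw [h2]
    rcases hD with h | ⟨f, hf, hf2⟩
    · right
      rw [countable_orbits_iff] at h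
      obtain ⟨C, hC, hC2⟩ := h
      refine ⟨Subtype.val '' C, hC.image _, fun x hx => ?_⟩
      obtain ⟨c, hc, g, hg⟩ := hC2 ⟨x, hx⟩
      exact ⟨c, ⟨c, hc, rfl⟩, (g.1, (g.2 : H)), congrArg Subtype.val hg⟩
    · left
      refine ⟨fun a => (f a : X), measurable_subtype_coe.comp hf, fun a b hab => ?_⟩
      rintro ⟨⟨w, h⟩, hg⟩
      have h1 : h ∈ N := by
        rw [hNmem]
        intro t
        have h2 : St (f a : X) = St s := (f a).2
        have h3 : St (f b : X) = St s := (f b).2
        have h4 : St (f b : X) = St (h • (f a : X)) := by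
          have hg' : ((w, h) : W × H) • (f a : X) = (f b : X) := hg
          rw [← hg', hWH, hStW]
        have h5 : h * t * h⁻¹ ∈ St (f b : X) ↔ t ∈ St (f a : X) := by
          rw [h4, hStH]
          have e : h⁻¹ * (h * t * h⁻¹) * h = t := by group
          rw [e]
        rw [h3, h2] at h5
        exact h5.symm
      exact hf2 a b hab ⟨(w, ⟨h, h1⟩), Subtype.ext hg⟩
  by_cases hperf : ∃ f : (ℕ → Bool) → X, Measurable f ∧
        ∀ x y : ℕ → Bool, x ≠ y → ¬ ∃ g : W × H, g • f x = f y
  · exact Or.inr hperf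
  left
  have hC : ∀ s : X, ∃ C : Set X, C.Countable ∧
      ∀ x, St x = St s → ∃ c ∈ C, ∃ g : W × H, g • c = x := fun s =>
    (hpiece s).resolve_left hperf
  choose C hC1 hC2 using hC
  rw [countable_orbits_iff]
  refine ⟨⋃ s ∈ R, C s, hR.biUnion fun s _ => hC1 s, fun x => ?_⟩
  obtain ⟨s, hs, hxs⟩ := hR2 x (mem_univ x)
  obtain ⟨h, hh⟩ := (hEiff _ _).1 hxs
  obtain ⟨c, hc, g, hg⟩ := hC2 s (h • x) hh
  refine ⟨c, mem_iUnion₂.2 ⟨s, hs, hc⟩, ((1, h⁻¹) : W × H) * g, ?_⟩
  rw [mul_smul, hg, ← hH1, inv_smul_smul]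

end Pool.Agent.V8H36.TV
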